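import Pool.Agent.H15.HLS.Targets

/-!
# Row LAT of hls_modules (MP_3713ea_co): the glued square is latin
-/

set_option autoImplicit false

namespace Pool.Agent.H63.HLS

open Pool.Agent.H51.Homog Pool.Agent.H22.HSQ Pool.Agent.H15.HLS

theorem two_inj {v : ℕ} (hv : Nat.Coprime v 30) {a b : ZMod v} (h : 2 * a = 2 * b) : a = b := by
  have h1 : Nat.Coprime 2 v := (Nat.Coprime.coprime_dvd_right (by norm_num : 2 ∣ 30) hv).symm
  have h2 : IsUnit ((2 : ℕ) : ZMod v) := (ZMod.isUnit_iff_coprime 2 v).2 h1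
  have h3 : IsUnit (2 : ZMod v) := by
    simpa using h2
  exact h3.mul_left_cancel h

theorem three_inj {v : ℕ} {q : ZMod v} (hq : 3 * q = 1) {a b : ZMod v} (h : 3 * a = 3 * b) :
    a = b := by
  have h1 : q * (3 * a) = q * (3 * b) := by rw [h]
  have h2 : q * (3 * a) = (3 * q) * a := by ring
  have h3 : q * (3 * b) = (3 * q) * b := by ring
  rw [h2, h3, hq, one_mul, one_mul] at h1
  exact h1

theorem emb_inj {v : ℕ} {W T : Type} {g : T → ZMod v} {x c : ZMod v} {r r' : W ⊕ Fib g c}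
    (h : (emb x c r : (ZMod v × W) ⊕ T) = emb x c r') : r = r' := by
  rcases r with i | a <;> rcases r' with j | b
  · have h1 : (Sum.inl (x, i) : (ZMod v × W) ⊕ T) = Sum.inl (x, j) := h
    rw [Sum.inl.injEq, Prod.mk.injEq] at h1
    rw [h1.2]
  · have h1 : (Sum.inl (x, i) : (ZMod v × W) ⊕ T) = Sum.inr b.1 := h
    exact absurd h1 Sum.inl_ne_inr
  · have h1 : (Sum.inr a.1 : (ZMod v × W) ⊕ T) = Sum.inl (x, j) := h
    exact absurd h1 Sum.inr_ne_inl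
  · have h1 : (Sum.inr a.1 : (ZMod v × W) ⊕ T) = Sum.inr b.1 := h
    rw [Sum.inr.injEq] at h1
    rw [Subtype.ext h1]

theorem emb_ne {v : ℕ} {W T : Type} {g : T → ZMod v} {x c : ZMod v} {r : W ⊕ Fib g c}
    (hr : r.isLeft) (t : T) : (emb x c r : (ZMod v × W) ⊕ T) ≠ Sum.inr t := by
  rcases r with i | a
  · exact Sum.inl_ne_inr
  · simp at hr

/-- a row in a block, outside of the hole -/
theorem symR (hHIN : T_HIN) {W H : Type} [Fintype W] [Finite H] {h : ℕ}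
    {A : W ⊕ H → W ⊕ H → W ⊕ H} (hA : Hol h A) {r c : W ⊕ H} (hr : r.isRight)
    (hn : ¬ InHole r c) : (A r c).isLeft := by
  have := Fintype.ofFinite H
  rcases r with i | a
  · simp at hr
  · rcases c with j | b
    · exact (hHIN W H h A hA).1 a j
    · exact absurd ⟨rfl, rfl⟩ hn

/-- a column in a block, outside of the hole -/
theorem symC (hHIN : T_HIN) {W H : Type} [Fintype W] [Finite H] {h : ℕ}
    {A : W ⊕ H → W ⊕ H → W ⊕ H} (hA : Hol h A) {r c : W ⊕ H} (hc : c.isRight)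
    (hn : ¬ InHole r c) : (A r c).isLeft := by
  have := Fintype.ofFinite H
  rcases c with i | a
  · simp at hc
  · rcases r with j | b
    · exact (hHIN W H h A hA).2 j a
    · exact absurd ⟨rfl, rfl⟩ hn

theorem not_both {α β : Type} {u : α ⊕ β} (h1 : u.isLeft) (h2 : u.isRight) : False := by
  rcases u with i | a
  · simp at h2
  · simp at h1

theorem pf_LAT (hHIN : T_HIN) (hBLK : T_BLK) (hEXB : T_EXB) (hEQE : T_EQE) : T_LAT := by
  intro v _ W T _ _ g h q A M hG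
  have hq := hG.inv
  have hfin : ∀ c, Finite (Fib g c) := fun c => inferInstance
  have hmix1 : ∀ (s t : T) (y : ZMod v) (j : W),
      sq q A M (Sum.inr s) (Sum.inr t) ≠ sq q A M (Sum.inr s) (Sum.inl (y, j)) := by
    intro s t y j h1
    have h2 : (Sum.inr (M s t) : (ZMod v × W) ⊕ T) =
      emb (g s - 3 * y + y) (g s) (A (g s) (Sum.inr ⟨s, rfl⟩) (Sum.inl j)) := h1
    refine emb_ne ?_ _ h2.symm
    refine symR hHIN (hG.hol _) rfl ?_
    rintro ⟨-, h3⟩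
    simp at h3
  have hmix2 : ∀ (s t : T) (x : ZMod v) (i : W),
      sq q A M (Sum.inr s) (Sum.inr t) ≠ sq q A M (Sum.inl (x, i)) (Sum.inr t) := by
    intro s t x i h1
    have h2 : (Sum.inr (M s t) : (ZMod v × W) ⊕ T) =
      emb (x + (g t - x) * q) (g t) (A (g t) (Sum.inl i) (Sum.inr ⟨t, rfl⟩)) := h1
    refine emb_ne ?_ _ h2.symm
    refine symC hHIN (hG.hol _) rfl ?_
    rintro ⟨h3, -⟩
    simp at h3
  have hrow : ∀ ρ κ₁ κ₂, ¬ InHole ρ κ₁ → ¬ InHole ρ κ₂ →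
      sq q A M ρ κ₁ = sq q A M ρ κ₂ → κ₁ = κ₂ := by
    intro ρ κ₁ κ₂ hn1 hn2 he
    obtain ⟨x₁, y₁, r₁, c₁, hρ1, hκ1, hb1⟩ := hEXB v W T g q hq ρ κ₁ hn1
    obtain ⟨x₂, y₂, r₂, c₂, hρ2, hκ2, hb2⟩ := hEXB v W T g q hq ρ κ₂ hn2
    have hs : (emb (x₁ + y₁) _ (A (x₁ + 3 * y₁) r₁ c₁) : (ZMod v × W) ⊕ T) =
        emb (x₂ + y₂) _ (A (x₂ + 3 * y₂) r₂ c₂) := by
      rw [← hBLK v W T g q A M hq x₁ y₁ r₁ c₁ hb1, ← hBLK v W T g q A M hq x₂ y₂ r₂ c₂ hb2,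
        ← hρ1, ← hκ1, ← hρ2, ← hκ2]
      exact he
    have hr : (emb x₁ _ r₁ : (ZMod v × W) ⊕ T) = emb x₂ _ r₂ := hρ1.symm.trans hρ2
    have hxy : x₁ = x₂ ∧ y₁ = y₂ := by
      rcases hEQE v W T g _ _ _ _ r₁ r₂ hr with ⟨-, -, h1⟩ | ⟨h0, -, h1⟩
      · rcases hEQE v W T g _ _ _ _ _ _ hs with ⟨-, -, h2⟩ | ⟨-, -, h2⟩
        · rw [h1] at h2
          exact ⟨h1, add_left_cancel h2⟩
        · rw [h1] at h2
          exact ⟨h1, three_inj hq (add_left_cancel h2)⟩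
      · rcases hEQE v W T g _ _ _ _ _ _ hs with ⟨-, -, h2⟩ | ⟨h3, -, -⟩
        · have h4 : y₁ = y₂ := two_inj hG.cop (by linear_combination h1 - h2)
          rw [h4] at h2
          exact ⟨add_right_cancel h2, h4⟩
        · exact (not_both (symR hHIN (hG.hol _) h0 hb1) h3).elim
    obtain ⟨rfl, rfl⟩ := hxy
    have e1 := emb_inj hr
    subst e1
    have e2 := emb_inj hs
    have e3 := ((hG.hol (x₁ + 3 * y₁)).latin.1 r₁).1 e2
    rw [hκ1, hκ2, e3]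
  have hcol : ∀ κ ρ₁ ρ₂, ¬ InHole ρ₁ κ → ¬ InHole ρ₂ κ →
      sq q A M ρ₁ κ = sq q A M ρ₂ κ → ρ₁ = ρ₂ := by
    intro κ ρ₁ ρ₂ hn1 hn2 he
    obtain ⟨x₁, y₁, r₁, c₁, hρ1, hκ1, hb1⟩ := hEXB v W T g q hq ρ₁ κ hn1
    obtain ⟨x₂, y₂, r₂, c₂, hρ2, hκ2, hb2⟩ := hEXB v W T g q hq ρ₂ κ hn2
    have hs : (emb (x₁ + y₁) _ (A (x₁ + 3 * y₁) r₁ c₁) : (ZMod v × W) ⊕ T) =
        emb (x₂ + y₂) _ (A (x₂ + 3 * y₂) r₂ c₂) := by
      rw [← hBLK v W T g q A M hq x₁ y₁ r₁ c₁ hb1, ← hBLK v W T g q A M hq x₂ y₂ r₂ c₂ hb2,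
        ← hρ1, ← hκ1, ← hρ2, ← hκ2]
      exact he
    have hc : (emb y₁ _ c₁ : (ZMod v × W) ⊕ T) = emb y₂ _ c₂ := hκ1.symm.trans hκ2
    have hxy : x₁ = x₂ ∧ y₁ = y₂ := by
      rcases hEQE v W T g _ _ _ _ c₁ c₂ hc with ⟨-, -, h1⟩ | ⟨h0, -, h1⟩
      · rcases hEQE v W T g _ _ _ _ _ _ hs with ⟨-, -, h2⟩ | ⟨-, -, h2⟩
        · rw [h1] at h2
          exact ⟨add_right_cancel h2, h1⟩
        · rw [h1] at h2
          exact ⟨add_right_cancel h2, h1⟩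
      · rcases hEQE v W T g _ _ _ _ _ _ hs with ⟨-, -, h2⟩ | ⟨h3, -, -⟩
        · have h4 : y₁ = y₂ := two_inj hG.cop (by linear_combination h1 - h2)
          rw [h4] at h2
          exact ⟨add_right_cancel h2, h4⟩
        · exact (not_both (symC hHIN (hG.hol _) h0 hb1) h3).elim
    obtain ⟨rfl, rfl⟩ := hxy
    have e1 := emb_inj hc
    subst e1
    have e2 := emb_inj hs
    have e3 := ((hG.hol (x₁ + 3 * y₁)).latin.2 c₁).1 e2
    rw [hρ1, hρ2, e3]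
  have nh1 : ∀ (ρ : (ZMod v × W) ⊕ T) (p : ZMod v × W), ¬ InHole ρ (Sum.inl p) := by
    rintro ρ p ⟨-, h1⟩
    simp at h1
  have nh2 : ∀ (κ : (ZMod v × W) ⊕ T) (p : ZMod v × W), ¬ InHole (Sum.inl p) κ := by
    rintro κ p ⟨h1, -⟩
    simp at h1
  constructor
  · intro ρ
    rw [← Finite.injective_iff_bijective]
    intro κ₁ κ₂ he
    rcases ρ with p | s
    · exact hrow _ _ _ (nh2 _ _) (nh2 _ _) he
    · rcases κ₁ with ⟨y, j⟩ | t <;> rcases κ₂ with ⟨y', j'⟩ | t'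
      · exact hrow _ _ _ (nh1 _ _) (nh1 _ _) he
      · exact absurd he.symm (hmix1 _ _ _ _)
      · exact absurd he (hmix1 _ _ _ _)
      · have h1 : (Sum.inr (M s t) : (ZMod v × W) ⊕ T) = Sum.inr (M s t') := he
        rw [Sum.inr.injEq] at h1
        rw [(hG.latin.1 s).1 h1]
  · intro κ
    rw [← Finite.injective_iff_bijective]
    intro ρ₁ ρ₂ he
    rcases κ with p | t
    · exact hcol _ _ _ (nh1 _ _) (nh1 _ _) he
    · rcases ρ₁ with ⟨x, i⟩ | s <;> rcases ρ₂ with ⟨x', i'⟩ | s'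
      · exact hcol _ _ _ (nh2 _ _) (nh2 _ _) he
      · exact absurd he.symm (hmix2 _ _ _ _)
      · exact absurd he (hmix2 _ _ _ _)
      · have h1 : (Sum.inr (M s t) : (ZMod v × W) ⊕ T) = Sum.inr (M s' t) := he
        rw [Sum.inr.injEq] at h1
        rw [(hG.latin.2 t).1 h1]

end Pool.Agent.H63.HLS
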